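import Mathlib

set_option autoImplicit false

/-!
Definitions for the symmetric strong diameter two property.
-/

namespace Pool.Agent.Lib.MP_a7d15e_an

/-- The slice `S(f, α) = {x ∈ B_X : f x > 1 - α}` of the closed unit ball of `X`. -/
def slice {X : Type*} [NormedAddCommGroup X] [NormedSpace ℝ X] (f : StrongDual ℝ X) (α : ℝ) :
    Set X :=
  {x | ‖x‖ ≤ 1 ∧ 1 - α < f x}

/-- The symmetric strong diameter two property: for all finitely many slices `S(f i, α i)` of the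
closed unit ball, with `‖f i‖ = 1` and `α i > 0`, and every `ε > 0` there are `x i ∈ S(f i, α i)`
and `y ∈ B_X` with `‖y‖ > 1 - ε` such that `x i ± y ∈ S(f i, α i)` for all `i`. -/
def SSD2P (X : Type*) [NormedAddCommGroup X] [NormedSpace ℝ X] : Prop :=
  ∀ (n : ℕ) (f : Fin n → StrongDual ℝ X) (α : Fin n → ℝ),
    (∀ i, ‖f i‖ = 1) → (∀ i, 0 < α i) → ∀ ε : ℝ, 0 < ε →
      ∃ (x : Fin n → X) (y : X), ‖y‖ ≤ 1 ∧ 1 - ε < ‖y‖ ∧
        ∀ i, x i ∈ slice (f i) (α i) ∧ x i + y ∈ slice (f i) (α i) ∧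
          x i - y ∈ slice (f i) (α i)

end Pool.Agent.Lib.MP_a7d15e_an
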