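import Mathlib
import Pool.Agent.Lib.MP_a7d15e_an.Defs

set_option autoImplicit false

/-!
A Banach space with the symmetric strong diameter two property whose bidual fails it.

The space is `c₀(V)` with the norm `max (sup |f x|) (sup over adjacent x, y of |f x - f y|)` for a
suitable bipartite graph on a countable set `V`.
-/

namespace Pool.Agent.Lib.MP_a7d15e_an

open Filter Topology

/-! ### The graph -/

/-- The vertex set. The first coordinate is the side of the bipartition. -/
abbrev V : Type := Bool × Bool × ℕ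

/-- Adjacency in the bipartite graph. -/
def adj (x y : V) : Prop :=
  x.1 ≠ y.1 ∧ (Nat.testBit x.2.2 y.2.2 = true ∨ Nat.testBit y.2.2 x.2.2 = true)

instance (x y : V) : Decidable (adj x y) := by unfold adj; infer_instance

lemma adj_symm {x y : V} (h : adj x y) : adj y x := ⟨fun e => h.1 e.symm, h.2.symm⟩

lemma exists_bits (S : Finset ℕ) : ∃ m : ℕ, ∀ k ∈ S, Nat.testBit m k = true := by
  induction S using Finset.induction_on with
  | empty => exact ⟨0, by simp⟩
  | insert a s ha ih =>
    obtain ⟨m, hm⟩ := ih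
    refine ⟨m ||| 2 ^ a, fun k hk => ?_⟩
    rw [Nat.testBit_or]
    rcases Finset.mem_insert.1 hk with rfl | h
    · simp [Nat.testBit_two_pow_self]
    · simp [hm k h]

lemma common_nbr (F : Finset V) (s t : Bool) :
    ∃ v : V, v.1 = s ∧ v.2.1 = t ∧ ∀ x ∈ F, x.1 ≠ s → adj x v := by
  obtain ⟨m, hm⟩ := exists_bits (F.image fun x => x.2.2)
  refine ⟨(s, t, m), rfl, rfl, fun x hx hs => ⟨hs, Or.inr ?_⟩⟩
  exact hm _ (Finset.mem_image_of_mem _ hx)

lemma exists_nonadj (F : Finset V) : ∃ u : V, u ∉ F ∧ ∀ x ∈ F, ¬ adj x u := by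
  obtain ⟨K, hK⟩ : ∃ K, ∀ x ∈ F, x.2.2 < K :=
    ⟨F.sup (fun x => x.2.2) + 1, fun x hx =>
      Nat.lt_succ_of_le (Finset.le_sup (f := fun x : V => x.2.2) hx)⟩
  have hKK : K < 2 ^ K := Nat.lt_two_pow_self
  refine ⟨(true, true, 2 ^ K), fun h => ?_, ?_⟩
  · have := hK _ h
    simp only at this
    omega
  · rintro x hx ⟨-, h | h⟩
    · have h1 : x.2.2 < 2 ^ (2 ^ K) := by
        have h2 : K < 2 ^ (2 ^ K) := hKK.trans Nat.lt_two_pow_self
        exact (hK x hx).trans h2
      rw [Nat.testBit_lt_two_pow h1] at h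
      exact absurd h (by decide)
    · simp only [Nat.testBit_two_pow] at h
      have h2 := hK x hx
      have h3 : K = x.2.2 := by simpa using h
      omega

/-! ### The space -/

/-- The space `c₀(V)`, realised as a space of bounded functions on `V ⊕ V × V`, where the second
summand records the differences along edges. -/
noncomputable def XS : Submodule ℝ (BoundedContinuousFunction (V ⊕ V × V) ℝ) where
  carrier := {F | (∀ x y : V, F (Sum.inr (x, y)) =
      if adj x y then F (Sum.inl x) - F (Sum.inl y) else 0) ∧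
      Tendsto (fun x : V => F (Sum.inl x)) cofinite (𝓝 0)}
  add_mem' := by
    rintro F G ⟨hF1, hF2⟩ ⟨hG1, hG2⟩
    refine ⟨fun x y => ?_, ?_⟩
    · simp only [BoundedContinuousFunction.coe_add, Pi.add_apply, hF1, hG1]
      split_ifs <;> ring
    · simpa using hF2.add hG2
  zero_mem' := by
    refine ⟨fun x y => by simp, by simp⟩
  smul_mem' := by
    rintro c F ⟨hF1, hF2⟩
    refine ⟨fun x y => ?_, ?_⟩
    · simp only [BoundedContinuousFunction.coe_smul, smul_eq_mul, hF1]
      split_ifs <;> ring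
    · simpa using hF2.const_mul c

/-- The Banach space. -/
def X : Type := ↥XS

noncomputable instance : NormedAddCommGroup X := inferInstanceAs (NormedAddCommGroup ↥XS)

noncomputable instance : NormedSpace ℝ X := inferInstanceAs (NormedSpace ℝ ↥XS)

/-- The coordinate of a vector. -/
noncomputable def co (F : X) (x : V) : ℝ := F.1 (Sum.inl x)

lemma co_add (F G : X) (x : V) : co (F + G) x = co F x + co G x := rfl
lemma co_sub (F G : X) (x : V) : co (F - G) x = co F x - co G x := rfl
lemma co_smul (c : ℝ) (F : X) (x : V) : co (c • F) x = c * co F x := rfl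
lemma co_zero (x : V) : co (0 : X) x = 0 := rfl

lemma co_tendsto (F : X) : Tendsto (co F) cofinite (𝓝 0) := F.2.2

lemma abs_co_le (F : X) (x : V) : |co F x| ≤ ‖F‖ :=
  F.1.norm_coe_le_norm (Sum.inl x)

lemma abs_co_sub_le (F : X) {x y : V} (h : adj x y) : |co F x - co F y| ≤ ‖F‖ := by
  have h1 := F.1.norm_coe_le_norm (Sum.inr (x, y))
  rw [F.2.1 x y, if_pos h] at h1
  exact h1

lemma norm_le_iff (F : X) {c : ℝ} (hc : 0 ≤ c) :
    ‖F‖ ≤ c ↔ (∀ x, |co F x| ≤ c) ∧ ∀ x y, adj x y → |co F x - co F y| ≤ c := by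
  constructor
  · intro h
    exact ⟨fun x => (abs_co_le F x).trans h, fun x y hxy => (abs_co_sub_le F hxy).trans h⟩
  · rintro ⟨h1, h2⟩
    have : ‖F.1‖ ≤ c := by
      rw [BoundedContinuousFunction.norm_le hc]
      rintro (x | ⟨x, y⟩)
      · exact h1 x
      · rw [F.2.1 x y]
        split_ifs with hxy
        · exact h2 x y hxy
        · simpa using hc
    exact this

lemma ext_co {F G : X} (h : ∀ x, co F x = co G x) : F = G := by
  apply Subtype.ext
  ext z
  rcases z with x | ⟨x, y⟩
  · exact h x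
  · rw [F.2.1 x y, G.2.1 x y]
    have hx := h x
    have hy := h y
    unfold co at hx hy
    rw [hx, hy]

lemma isClosed_XS : IsClosed (XS : Set (BoundedContinuousFunction (V ⊕ V × V) ℝ)) := by
  rw [← isSeqClosed_iff_isClosed]
  intro u F hu hF
  have hev : ∀ z, Tendsto (fun n => u n z) atTop (𝓝 (F z)) := fun z =>
    ((BoundedContinuousFunction.evalCLM ℝ z).continuous.tendsto F).comp hF
  refine ⟨fun x y => ?_, ?_⟩
  · have h1 := hev (Sum.inr (x, y))
    have h2 : Tendsto (fun n => if adj x y then u n (Sum.inl x) - u n (Sum.inl y) else 0) atTop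
        (𝓝 (if adj x y then F (Sum.inl x) - F (Sum.inl y) else 0)) := by
      split_ifs
      · exact (hev (Sum.inl x)).sub (hev (Sum.inl y))
      · exact tendsto_const_nhds
    refine tendsto_nhds_unique h1 (h2.congr fun n => ?_)
    exact ((hu n).1 x y).symm
  · rw [Metric.tendsto_nhds]
    intro ε hε
    obtain ⟨n, hn⟩ := (Metric.tendsto_atTop.1 hF (ε / 2) (by positivity))
    have h1 := (Metric.tendsto_nhds.1 (hu n).2) (ε / 2) (by positivity)
    filter_upwards [h1] with x hx
    have h2 : dist (u n (Sum.inl x)) (F (Sum.inl x)) < ε / 2 :=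
      lt_of_le_of_lt (BoundedContinuousFunction.dist_coe_le_dist _) (hn n le_rfl)
    calc dist (F (Sum.inl x)) 0 ≤ dist (F (Sum.inl x)) (u n (Sum.inl x)) +
          dist (u n (Sum.inl x)) 0 := dist_triangle _ _ _
      _ < ε / 2 + ε / 2 := by rw [dist_comm (F _)]; exact add_lt_add h2 hx
      _ = ε := by ring

instance : CompleteSpace X := isClosed_XS.completeSpace_coe

/-! ### Unit vectors and truncations -/

/-- The extension of a function on `V` to `V ⊕ V × V`. -/
noncomputable def extF (f : V → ℝ) : V ⊕ V × V → ℝ :=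
  Sum.elim f (fun p => if adj p.1 p.2 then f p.1 - f p.2 else 0)

/-- The unit vector at `u`. -/
noncomputable def e (u : V) : X :=
  ⟨BoundedContinuousFunction.ofNormedAddCommGroupDiscrete
      (extF fun x => if x = u then (1 : ℝ) else 0) 2 (by
        rintro (x | ⟨x, y⟩)
        · simp only [extF, Sum.elim_inl]
          split_ifs <;> norm_num
        · simp only [extF, Sum.elim_inr]
          split_ifs <;> norm_num), by
    refine ⟨fun x y => rfl, ?_⟩
    apply tendsto_nhds_of_eventually_eq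
    have : (cofinite : Filter V).Eventually fun x => x ≠ u := by
      simp [Filter.eventually_cofinite]
    filter_upwards [this] with x hx
    simp [extF, hx]⟩

lemma co_e (u x : V) : co (e u) x = if x = u then (1 : ℝ) else 0 := rfl

/-- The finitely supported vector with coordinates `c` on `N`. -/
noncomputable def tr (N : Finset V) (c : V → ℝ) : X := ∑ x ∈ N, c x • e x

lemma co_sum {ι : Type*} (N : Finset ι) (f : ι → X) (x : V) :
    co (∑ i ∈ N, f i) x = ∑ i ∈ N, co (f i) x := by
  classical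
  induction N using Finset.induction_on with
  | empty => simp [co_zero]
  | insert a s ha ih => rw [Finset.sum_insert ha, Finset.sum_insert ha, co_add, ih]

lemma co_tr (N : Finset V) (c : V → ℝ) (y : V) : co (tr N c) y = if y ∈ N then c y else 0 := by
  rw [tr, co_sum]
  simp only [co_smul, co_e]
  simp [Finset.sum_ite_eq]

lemma norm_tr_le_two (N : Finset V) (c : V → ℝ) {C : ℝ} (hC : 0 ≤ C) (hc : ∀ x, |c x| ≤ C) :
    ‖tr N c‖ ≤ 2 * C := by
  have h1 : ∀ x, |co (tr N c) x| ≤ C := by
    intro x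
    rw [co_tr]
    split_ifs
    · exact hc x
    · simpa using hC
  rw [norm_le_iff _ (by positivity)]
  refine ⟨fun x => (h1 x).trans (by linarith), fun x y _ => ?_⟩
  calc |co (tr N c) x - co (tr N c) y| ≤ |co (tr N c) x| + |co (tr N c) y| := abs_sub _ _
    _ ≤ C + C := add_le_add (h1 x) (h1 y)
    _ = 2 * C := by ring

lemma hasSum_e (F : X) : HasSum (fun x => co F x • e x) F := by
  rw [HasSum, Metric.tendsto_nhds]
  intro ε hε
  have h1 := (Metric.tendsto_nhds.1 (co_tendsto F)) (ε / 4) (by positivity)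
  rw [Filter.eventually_cofinite] at h1
  filter_upwards [Filter.eventually_ge_atTop h1.toFinset] with N hN
  have h2 : ∀ x, |co (tr N (co F) - F) x| ≤ ε / 4 := by
    intro x
    rw [co_sub, co_tr]
    split_ifs with hx
    · simp only [sub_self, abs_zero]; positivity
    · have h3 : x ∉ h1.toFinset := fun h => hx (hN h)
      simp only [Set.Finite.mem_toFinset, Set.mem_ofPred_eq, not_not, dist_zero_right,
        Real.norm_eq_abs] at h3
      simpa using h3.le
  have h3 : ‖tr N (co F) - F‖ ≤ ε / 2 := by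
    rw [norm_le_iff _ (by positivity)]
    refine ⟨fun x => (h2 x).trans (by linarith), fun x y _ => ?_⟩
    calc |co (tr N (co F) - F) x - co (tr N (co F) - F) y|
        ≤ |co (tr N (co F) - F) x| + |co (tr N (co F) - F) y| := abs_sub _ _
      _ ≤ ε / 4 + ε / 4 := add_le_add (h2 x) (h2 y)
      _ = ε / 2 := by ring
  have h4 : dist (∑ x ∈ N, co F x • e x) F = ‖tr N (co F) - F‖ := dist_eq_norm _ _
  calc dist (∑ x ∈ N, co F x • e x) F = ‖tr N (co F) - F‖ := h4
    _ ≤ ε / 2 := h3
    _ < ε := by linarith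

/-! ### The dual -/

/-- The evaluation functional at `x`. -/
noncomputable def δ (x : V) : StrongDual ℝ X :=
  LinearMap.mkContinuous
    { toFun := fun F => co F x
      map_add' := fun _ _ => rfl
      map_smul' := fun _ _ => rfl } 1
    (fun F => by rw [one_mul, Real.norm_eq_abs]; exact abs_co_le F x)

lemma δ_apply (x : V) (F : X) : δ x F = co F x := rfl

lemma norm_δ_le (x : V) : ‖δ x‖ ≤ 1 :=
  ContinuousLinearMap.opNorm_le_bound _ zero_le_one fun F => by
    rw [one_mul, Real.norm_eq_abs, δ_apply]; exact abs_co_le F x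

lemma norm_δ_sub_le {x y : V} (h : adj x y) : ‖δ x - δ y‖ ≤ 1 :=
  ContinuousLinearMap.opNorm_le_bound _ zero_le_one fun F => by
    rw [one_mul, Real.norm_eq_abs]; exact abs_co_sub_le F h

lemma sum_abs_le (φ : StrongDual ℝ X) (N : Finset V) : ∑ x ∈ N, |φ (e x)| ≤ 2 * ‖φ‖ := by
  have h1 : ∑ x ∈ N, |φ (e x)| = φ (tr N fun x => SignType.sign (φ (e x))) := by
    rw [tr, map_sum]
    refine Finset.sum_congr rfl fun x _ => ?_
    rw [map_smul, smul_eq_mul, sign_mul_self]
  rw [h1]
  have h2 : ‖tr N fun x => ((SignType.sign (φ (e x)) : SignType) : ℝ)‖ ≤ 2 * 1 := by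
    apply norm_tr_le_two _ _ zero_le_one
    intro x
    rcases SignType.trichotomy (SignType.sign (φ (e x))) with h | h | h <;> simp [h]
  calc φ (tr N fun x => SignType.sign (φ (e x)))
      ≤ ‖φ (tr N fun x => SignType.sign (φ (e x)))‖ := le_abs_self _
    _ ≤ ‖φ‖ * ‖tr N fun x => ((SignType.sign (φ (e x)) : SignType) : ℝ)‖ := φ.le_opNorm _
    _ ≤ ‖φ‖ * (2 * 1) := mul_le_mul_of_nonneg_left h2 (norm_nonneg _)
    _ = 2 * ‖φ‖ := by ring

lemma summable_abs (φ : StrongDual ℝ X) : Summable fun x => |φ (e x)| :=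
  summable_of_sum_le (fun _ => abs_nonneg _) (sum_abs_le φ)

lemma hasSum_δ (φ : StrongDual ℝ X) : HasSum (fun x => φ (e x) • δ x) φ := by
  have h1 : Summable fun x => φ (e x) • δ x := by
    apply Summable.of_norm_bounded (summable_abs φ)
    intro x
    rw [norm_smul, Real.norm_eq_abs]
    exact mul_le_of_le_one_right (abs_nonneg _) (norm_δ_le x)
  have h2 : (∑' x, φ (e x) • δ x) = φ := by
    ext F
    have h3 : HasSum (fun x => (φ (e x) • δ x) F) ((∑' x, φ (e x) • δ x) F) :=
      (ContinuousLinearMap.apply ℝ ℝ F).hasSum h1.hasSum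
    have h4 : HasSum (fun x => φ (co F x • e x)) (φ F) := φ.hasSum (hasSum_e F)
    refine h3.unique (h4.congr_fun ?_)
    intro x
    simp [δ_apply, mul_comm]
  have := h1.hasSum
  rwa [h2] at this

/-- The norm of an element of the bidual is controlled by its values at the evaluations. -/
lemma norm_bidual_le (g : StrongDual ℝ (StrongDual ℝ X)) {c : ℝ} (hc : 0 ≤ c)
    (h : ∀ x, |g (δ x)| ≤ c) : ‖g‖ ≤ 2 * c := by
  refine ContinuousLinearMap.opNorm_le_bound _ (by positivity) fun φ => ?_
  have h1 : HasSum (fun x => g (φ (e x) • δ x)) (g φ) := g.hasSum (hasSum_δ φ)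
  have h2 : Summable fun x => c * |φ (e x)| := (summable_abs φ).mul_left c
  have h3 : ∀ x, ‖g (φ (e x) • δ x)‖ ≤ c * |φ (e x)| := by
    intro x
    rw [map_smul, smul_eq_mul, norm_mul, Real.norm_eq_abs, Real.norm_eq_abs, mul_comm]
    exact mul_le_mul_of_nonneg_right (h x) (abs_nonneg _)
  rw [← h1.tsum_eq]
  calc ‖∑' x, g (φ (e x) • δ x)‖ ≤ ∑' x, c * |φ (e x)| := tsum_of_norm_bounded h2.hasSum h3
    _ = c * ∑' x, |φ (e x)| := tsum_mul_left
    _ ≤ c * (2 * ‖φ‖) := by
        apply mul_le_mul_of_nonneg_left _ hc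
        exact (summable_abs φ).tsum_le_of_sum_le (sum_abs_le φ)
    _ = 2 * c * ‖φ‖ := by ring

/-! ### `X` has the SSD2P -/

lemma exists_mem_slice {Y : Type*} [NormedAddCommGroup Y] [NormedSpace ℝ Y]
    (f : StrongDual ℝ Y) (hf : ‖f‖ = 1) {α : ℝ} (hα : 0 < α) : ∃ x, x ∈ slice f α := by
  obtain ⟨x, hx1, hx2⟩ := f.exists_lt_apply_of_lt_opNorm (r := 1 - α) (by rw [hf]; linarith)
  rcases le_total 0 (f x) with h | h
  · exact ⟨x, hx1.le, by rwa [Real.norm_eq_abs, abs_of_nonneg h] at hx2⟩
  · refine ⟨-x, by simpa using hx1.le, ?_⟩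
    rw [Real.norm_eq_abs, abs_of_nonpos h] at hx2
    simpa using hx2

lemma norm_tr_le_of_norm_le (F : X) (hF : ‖F‖ ≤ 1) (N : Finset V) : ‖tr N (co F)‖ ≤ 1 := by
  rw [norm_le_iff _ zero_le_one]
  refine ⟨fun x => ?_, fun x y hxy => ?_⟩
  · rw [co_tr]
    split_ifs
    · exact (abs_co_le F x).trans hF
    · simp
  · rw [co_tr, co_tr]
    split_ifs
    · exact (abs_co_sub_le F hxy).trans hF
    · simpa using (abs_co_le F x).trans hF
    · simpa using (abs_co_le F y).trans hF
    · simp

theorem ssd2p_X : SSD2P X := by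
  intro n f α hf hα ε hε
  -- finitely supported elements of the slices
  have h1 : ∀ i, ∃ F : X, F ∈ slice (f i) (α i) := fun i => exists_mem_slice (f i) (hf i) (hα i)
  choose F hF using h1
  have h2 : ∀ i, ∀ᶠ N : Finset V in atTop, 1 - α i < f i (tr N (co (F i))) := by
    intro i
    have h3 : Tendsto (fun N : Finset V => f i (tr N (co (F i)))) atTop (𝓝 (f i (F i))) :=
      ((f i).continuous.tendsto _).comp (hasSum_e (F i))
    exact h3.eventually (lt_mem_nhds (hF i).2)
  obtain ⟨N, hN⟩ := (eventually_all.2 h2).exists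
  -- the margins
  have h4 : ∀ i, ∀ᶠ u : V in cofinite, |f i (e u)| < f i (tr N (co (F i))) - (1 - α i) := by
    intro i
    have h5 : Tendsto (fun u => |f i (e u)|) cofinite (𝓝 0) :=
      (summable_abs (f i)).tendsto_cofinite_zero
    exact h5.eventually (gt_mem_nhds (by linarith [hN i]))
  have h6 : ∀ᶠ u : V in cofinite, ∀ i, |f i (e u)| < f i (tr N (co (F i))) - (1 - α i) :=
    eventually_all.2 h4
  rw [Filter.eventually_cofinite] at h6
  obtain ⟨u, hu1, hu2⟩ := exists_nonadj (N ∪ h6.toFinset)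
  have hu3 : ∀ i, |f i (e u)| < f i (tr N (co (F i))) - (1 - α i) := by
    by_contra hcon
    exact hu1 (Finset.mem_union_right _ (by simpa using hcon))
  have huN : u ∉ N := fun h => hu1 (Finset.mem_union_left _ h)
  have huadj : ∀ x ∈ N, ¬ adj x u := fun x hx => hu2 x (Finset.mem_union_left _ hx)
  have hball : ∀ i, ∀ s : ℝ, |s| = 1 → ‖tr N (co (F i)) + s • e u‖ ≤ 1 := by
    intro i s hs
    have hT := norm_tr_le_of_norm_le (F i) (hF i).1 N
    rw [norm_le_iff _ zero_le_one] at hT ⊢
    refine ⟨fun x => ?_, fun x y hxy => ?_⟩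
    · rw [co_add, co_smul, co_e]
      by_cases hx : x = u
      · subst hx
        rw [co_tr, if_neg huN]
        simp [hs]
      · simpa [hx] using hT.1 x
    · rw [co_add, co_smul, co_e, co_add, co_smul, co_e]
      by_cases hx : x = u
      · subst hx
        have hy : y ∉ N := fun hy => huadj y hy (adj_symm hxy)
        have hyx : y ≠ x := by
          rintro rfl
          exact hxy.1 rfl
        rw [co_tr, if_neg huN, co_tr, if_neg hy]
        simp [hs, hyx]
      · by_cases hy : y = u
        · subst hy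
          have hxN : x ∉ N := fun hxN => huadj x hxN hxy
          have e1 : co (tr N (co (F i))) y = 0 := by rw [co_tr, if_neg huN]
          have e2 : co (tr N (co (F i))) x = 0 := by rw [co_tr, if_neg hxN]
          rw [e1, e2]
          simp [hs, hx]
        · simpa [hx, hy] using hT.2 x y hxy
  refine ⟨fun i => tr N (co (F i)), e u, ?_, ?_, fun i => ⟨⟨?_, hN i⟩, ⟨?_, ?_⟩, ⟨?_, ?_⟩⟩⟩
  · rw [norm_le_iff _ zero_le_one]
    refine ⟨fun x => ?_, fun x y _ => ?_⟩
    · rw [co_e]; split_ifs <;> simp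
    · rw [co_e, co_e]; split_ifs <;> simp
  · have := abs_co_le (e u) u
    rw [co_e, if_pos rfl, abs_one] at this
    linarith
  · exact norm_tr_le_of_norm_le (F i) (hF i).1 N
  · simpa using hball i 1 (by simp)
  · have := (abs_lt.1 (hu3 i)).1
    rw [map_add]
    linarith
  · have := hball i (-1) (by simp)
    simpa [sub_eq_add_neg] using this
  · have := (abs_lt.1 (hu3 i)).2
    rw [map_sub]
    linarith

/-! ### The bidual fails the SSD2P -/

/-- Limits of bounded families of functionals along an ultrafilter. -/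
lemma exists_limit {E : Type*} [NormedAddCommGroup E] [NormedSpace ℝ E] {ι : Type*}
    (p : Ultrafilter ι) (φ : ι → StrongDual ℝ E) (hφ : ∀ i, ‖φ i‖ ≤ 1) :
    ∃ m : StrongDual ℝ E, ‖m‖ ≤ 1 ∧ ∀ x, Tendsto (fun i => φ i x) p (𝓝 (m x)) := by
  have hc := WeakDual.isCompact_closedBall (𝕜 := ℝ) (0 : StrongDual ℝ E) 1
  rw [isCompact_iff_ultrafilter_le_nhds] at hc
  obtain ⟨m, hm1, hm2⟩ := hc (p.map fun i => StrongDual.toWeakDual (φ i)) (by
    rw [le_principal_iff]
    refine Filter.mem_map.2 (Filter.univ_mem' fun i => ?_)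
    simpa using hφ i)
  refine ⟨WeakDual.toStrongDual m, by simpa using hm1, fun x => ?_⟩
  have h1 : Tendsto (fun i => StrongDual.toWeakDual (φ i)) p (𝓝 m) := hm2
  exact ((WeakDual.eval_continuous x).tendsto m).comp h1

/-- The ultrafilter on the finite subsets of `V` refining `atTop`. -/
noncomputable def U : Ultrafilter (Finset V) := Ultrafilter.of atTop

lemma U_le : (U : Filter (Finset V)) ≤ atTop := Ultrafilter.of_le _

/-- The net of common neighbours. -/
noncomputable def nb (s t : Bool) (F : Finset V) : V := (common_nbr F s t).choose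

lemma nb_fst (s t : Bool) (F : Finset V) : (nb s t F).1 = s := (common_nbr F s t).choose_spec.1

lemma nb_snd (s t : Bool) (F : Finset V) : (nb s t F).2.1 = t :=
  (common_nbr F s t).choose_spec.2.1

lemma nb_adj (s t : Bool) {b : V} (hb : b.1 ≠ s) :
    ∀ᶠ F in (U : Filter (Finset V)), adj b (nb s t F) := by
  have h1 : ∀ᶠ F : Finset V in atTop, adj b (nb s t F) := by
    filter_upwards [Filter.eventually_ge_atTop {b}] with F hF
    exact (common_nbr F s t).choose_spec.2.2 b (hF (Finset.mem_singleton_self b)) hb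
  exact U_le h1

/-- The sign pattern on the side `s`. -/
noncomputable def sg (s : Bool) (x : V) : ℝ :=
  if x.1 = s then (if x.2.1 = true then 1 else -1) else 0

/-- The abstract form of the argument, for the dual of a normed space `D` with a family
`δ : V → D`. -/
theorem not_ssd2p_dual {D : Type*} [NormedAddCommGroup D] [NormedSpace ℝ D] (d : V → D)
    (hd1 : ∀ x, ‖d x‖ ≤ 1) (hd2 : ∀ x y, adj x y → ‖d x - d y‖ ≤ 1)
    (hd3 : ∀ g : StrongDual ℝ D, ∀ c : ℝ, 0 ≤ c → (∀ x, |g (d x)| ≤ c) → ‖g‖ ≤ 2 * c)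
    (hd4 : ∀ s, ∃ G : StrongDual ℝ D, ‖G‖ ≤ 1 ∧ ∀ x, G (d x) = sg s x) :
    ¬ SSD2P (StrongDual ℝ D) := by
  -- the limit functionals
  have hlim : ∀ s t : Bool, ∃ m : StrongDual ℝ (StrongDual ℝ D), ‖m‖ ≤ 1 ∧
      ∀ g : StrongDual ℝ D,
        Tendsto (fun F => g (d (nb s t F))) (U : Filter (Finset V)) (𝓝 (m g)) := by
    intro s t
    exact exists_limit U (fun F => NormedSpace.inclusionInDoubleDual ℝ D (d (nb s t F)))
      (fun F => (NormedSpace.double_dual_bound ℝ _ _).trans (hd1 _))
  choose lm norm_lm lm_tendsto using hlim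
  -- the functionals determining the slices
  obtain ⟨ms, hms⟩ : ∃ ms : Bool → StrongDual ℝ (StrongDual ℝ D),
      ∀ s g, ms s g = 1 / 2 * (lm s true g - lm s false g) :=
    ⟨fun s => (1 / 2 : ℝ) • (lm s true - lm s false), fun s g => rfl⟩
  have hlm : ∀ s t (g : StrongDual ℝ D), |lm s t g| ≤ ‖g‖ := by
    intro s t g
    have h1 := (lm s t).le_opNorm g
    rw [Real.norm_eq_abs] at h1
    exact h1.trans (mul_le_of_le_one_left (norm_nonneg _) (norm_lm _ _))
  have norm_ms_le : ∀ s, ‖ms s‖ ≤ 1 := by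
    intro s
    refine ContinuousLinearMap.opNorm_le_bound _ zero_le_one fun g => ?_
    rw [hms, Real.norm_eq_abs, one_mul, abs_le]
    have h1 := abs_le.1 (hlm s true g)
    have h2 := abs_le.1 (hlm s false g)
    constructor <;> linarith [h1.1, h1.2, h2.1, h2.2]
  have norm_ms : ∀ s, ‖ms s‖ = 1 := by
    intro s
    refine le_antisymm (norm_ms_le s) ?_
    obtain ⟨G, h1, h2⟩ := hd4 s
    have h3 : lm s true G = 1 := by
      refine tendsto_nhds_unique (lm_tendsto s true G) ?_
      refine tendsto_nhds_of_eventually_eq (Filter.Eventually.of_forall fun F => ?_)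
      rw [h2, sg, if_pos (nb_fst _ _ _), if_pos (nb_snd _ _ _)]
    have h4 : lm s false G = -1 := by
      refine tendsto_nhds_unique (lm_tendsto s false G) ?_
      refine tendsto_nhds_of_eventually_eq (Filter.Eventually.of_forall fun F => ?_)
      rw [h2, sg, if_pos (nb_fst _ _ _), nb_snd]
      simp
    have h5 : ms s G = 1 := by
      rw [hms, h3, h4]; norm_num
    have h6 : ‖ms s G‖ ≤ ‖ms s‖ * ‖G‖ := (ms s).le_opNorm G
    rw [h5, norm_one] at h6
    have h7 : ‖ms s‖ * ‖G‖ ≤ ‖ms s‖ * 1 :=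
      mul_le_mul_of_nonneg_left h1 (ContinuousLinearMap.opNorm_nonneg _)
    linarith
  -- elements of the slices are small on the other side
  have key1 : ∀ (s : Bool) (α : ℝ) (h : StrongDual ℝ D), h ∈ slice (ms s) α → ∀ b : V,
      b.1 ≠ s → |h (d b)| ≤ 2 * α := by
    intro s α h hh b hb
    obtain ⟨h1, h2⟩ := hh
    rw [hms] at h2
    have hb1 := abs_le.1 ((hlm s true h).trans h1)
    have hb2 := abs_le.1 ((hlm s false h).trans h1)
    have key : ∀ t, |lm s t h - h (d b)| ≤ 1 := by
      intro t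
      have h3 : Tendsto (fun F => |h (d (nb s t F)) - h (d b)|) (U : Filter (Finset V))
          (𝓝 |lm s t h - h (d b)|) := ((lm_tendsto s t h).sub_const _).abs
      refine le_of_tendsto h3 ?_
      filter_upwards [nb_adj s t hb] with F hF
      rw [← map_sub]
      have h4 : ‖h (d (nb s t F) - d b)‖ ≤ ‖h‖ * ‖d (nb s t F) - d b‖ := h.le_opNorm _
      have h5 := hd2 _ _ (adj_symm hF)
      rw [Real.norm_eq_abs] at h4
      exact h4.trans (mul_le_one₀ h1 (norm_nonneg _) h5)
    have k1 := abs_le.1 (key true)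
    have k2 := abs_le.1 (key false)
    rw [abs_le]
    constructor <;> linarith [k1.1, k1.2, k2.1, k2.2, hb1.1, hb1.2, hb2.1, hb2.2]
  intro H
  obtain ⟨x, y, hy1, hy2, hxy⟩ := H 2 (fun i => ms (decide (i = 0))) (fun _ => 1 / 16)
    (fun i => norm_ms _) (fun _ => by norm_num) (1 / 2) (by norm_num)
  have key : ∀ b : V, |y (d b)| ≤ 1 / 8 := by
    intro b
    -- choose the slice for the other side
    obtain ⟨i, hi⟩ : ∃ i : Fin 2, b.1 ≠ decide (i = 0) := by
      rcases b.1 with _ | _
      · exact ⟨0, by simp⟩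
      · exact ⟨1, by simp⟩
    have h1 := key1 _ _ _ (hxy i).2.1 b hi
    have h2 := key1 _ _ _ (hxy i).2.2 b hi
    have e1 : (x i + y) (d b) = x i (d b) + y (d b) := rfl
    have e2 : (x i - y) (d b) = x i (d b) - y (d b) := rfl
    rw [e1] at h1
    rw [e2] at h2
    rw [abs_le] at h1 h2 ⊢
    constructor <;> linarith [h1.1, h1.2, h2.1, h2.2]
  have h3 := hd3 y (1 / 8) (by norm_num) key
  linarith

lemma norm_tr_sg (s : Bool) (N : Finset V) : ‖tr N (sg s)‖ ≤ 1 := by
  have h1 : ∀ x, |sg s x| ≤ 1 := by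
    intro x
    unfold sg
    split_ifs <;> simp
  rw [norm_le_iff _ zero_le_one]
  refine ⟨fun x => ?_, fun x y hxy => ?_⟩
  · rw [co_tr]
    split_ifs
    · exact h1 x
    · simp
  · rw [co_tr, co_tr]
    by_cases hx : x.1 = s
    · have hy : y.1 ≠ s := fun hy => hxy.1 (hx.trans hy.symm)
      have : sg s y = 0 := by simp [sg, hy]
      rw [this]
      split_ifs <;> simp [h1 x]
    · have : sg s x = 0 := by simp [sg, hx]
      rw [this]
      split_ifs <;> simp [h1 y]

lemma exists_sign_element (s : Bool) : ∃ G : StrongDual ℝ (StrongDual ℝ X), ‖G‖ ≤ 1 ∧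
    ∀ x, G (δ x) = sg s x := by
  obtain ⟨G, h1, h2⟩ := exists_limit U
    (fun N => NormedSpace.inclusionInDoubleDual ℝ X (tr N (sg s)))
    (fun N => (NormedSpace.double_dual_bound ℝ _ _).trans (norm_tr_sg s N))
  refine ⟨G, h1, fun x => ?_⟩
  have h3 : ∀ᶠ N in (U : Filter (Finset V)),
      (NormedSpace.inclusionInDoubleDual ℝ X (tr N (sg s))) (δ x) = sg s x := by
    have h4 : ∀ᶠ N : Finset V in atTop,
        (NormedSpace.inclusionInDoubleDual ℝ X (tr N (sg s))) (δ x) = sg s x := by
      filter_upwards [Filter.eventually_ge_atTop {x}] with N hN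
      rw [NormedSpace.dual_def, δ_apply, co_tr, if_pos (hN (Finset.mem_singleton_self x))]
    exact U_le h4
  have h5 : Tendsto (fun N => (NormedSpace.inclusionInDoubleDual ℝ X (tr N (sg s))) (δ x))
      (U : Filter (Finset V)) (𝓝 (sg s x)) :=
    tendsto_nhds_of_eventually_eq h3
  exact tendsto_nhds_unique (h2 (δ x)) h5

theorem not_ssd2p_bidual : ¬ SSD2P (StrongDual ℝ (StrongDual ℝ X)) :=
  not_ssd2p_dual δ norm_δ_le (fun _ _ h => norm_δ_sub_le h)
    (fun g _ hc h => norm_bidual_le g hc h) exists_sign_element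

end Pool.Agent.Lib.MP_a7d15e_an
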